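import Pool.Agent.X190.Conj

/-! Two unital homomorphisms from `O_∞` into a purely infinite simple C*-algebra which agree in a
state and are not approximately conjugate by state preserving automorphisms. -/

set_option autoImplicit false

namespace Pool.Agent.Results.MP_ced2c5_an.NoPreservingAutomorphism

open Pool.Agent.X190.States Pool.Agent.X190.FreeProd

/-- There are a copy `O` of the Cuntz algebra `O_∞`, a separable simple purely infinite unital
C*-algebra `D`, a state `μ` on `D`, unital *-homomorphisms `φ₁, φ₂ : O → D` with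
`μ ∘ φ₁ = μ ∘ φ₂`, an element `a` of `O` and `ε > 0` such that every *-automorphism `α` of `D` with
`μ ∘ α = μ` satisfies `‖φ₂ a - α (φ₁ a)‖ ≥ ε`. -/
theorem result : ∃ (O : Type) (_ : CStarAlgebra O) (s : ℕ → O), IsCuntzInfinity O s ∧
    ∃ (D : Type) (_ : CStarAlgebra D), TopologicalSpace.SeparableSpace D ∧
      IsPurelyInfiniteSimple D ∧
    ∃ (μ : D →L[ℂ] ℂ) (φ₁ φ₂ : O →⋆ₐ[ℂ] D), IsState μ ∧ (∀ a, μ (φ₁ a) = μ (φ₂ a)) ∧
      ∃ (a : O) (ε : ℝ), 0 < ε ∧ ∀ α : D ≃⋆ₐ[ℂ] D, (∀ x, μ (α x) = μ x) →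
        ε ≤ ‖φ₂ a - α (φ₁ a)‖ :=
  Pool.Agent.X190.Conj.packaged

end Pool.Agent.Results.MP_ced2c5_an.NoPreservingAutomorphism
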